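import Mathlib

/-!
Codes of logarithmic length such that the AND of the codes of `u` and `v` is not below the code
of `w` unless `w` is `u` or `v`.
-/

namespace P65H

/-- The set `χ` separates the triple `(u, v, w)`. -/
def Sep {V : Type} (χ : V → Bool) (t : V × V × V) : Prop :=
  χ t.1 = true ∧ χ t.2.1 = true ∧ χ t.2.2 = false

theorem sep_count {V : Type} [Fintype V] [DecidableEq V] (t : V × V × V) (h1 : t.2.2 ≠ t.1)
    (h2 : t.2.2 ≠ t.2.1) [DecidablePred fun χ : V → Bool => Sep χ t] :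
    Fintype.card (V → Bool) ≤
      8 * (Finset.univ.filter (fun χ : V → Bool => Sep χ t)).card := by
  classical
  obtain ⟨u, v, w⟩ := t
  simp only at h1 h2
  let F : (V → Bool) → (V → Bool) := fun χ =>
    Function.update (Function.update (Function.update χ u true) v true) w false
  have hF : ∀ χ, Sep (F χ) (u, v, w) := by
    intro χ
    refine ⟨?_, ?_, ?_⟩
    · simp only [F]
      rw [Function.update_of_ne (Ne.symm h1)]
      by_cases huv : u = v
      · subst huv
        simp
      · rw [Function.update_of_ne huv]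
        simp
    · simp only [F]
      rw [Function.update_of_ne (Ne.symm h2)]
      simp
    · simp only [F]
      simp
  have hcard : (Finset.univ : Finset (V → Bool)).card ≤
      ((Finset.univ.filter (fun χ : V → Bool => Sep χ (u, v, w))) ×ˢ
        (Finset.univ : Finset (Bool × Bool × Bool))).card := by
    refine Finset.card_le_card_of_injOn (fun χ => (F χ, (χ u, χ v, χ w))) ?_ ?_
    · intro χ _
      simp only [Finset.coe_product, Set.mem_prod, Finset.mem_coe, Finset.mem_filter,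
        Finset.mem_univ, true_and, and_true]
      exact hF χ
    · intro χ _ χ' _ he
      simp only [Prod.mk.injEq] at he
      obtain ⟨e1, e2, e3, e4⟩ := he
      funext i
      by_cases hw : i = w
      · rw [hw]; exact e4
      by_cases hv : i = v
      · rw [hv]; exact e3
      by_cases hu : i = u
      · rw [hu]; exact e2
      have e5 := congrFun e1 i
      simp only [F] at e5
      rw [Function.update_of_ne hw, Function.update_of_ne hv, Function.update_of_ne hu,
        Function.update_of_ne hw, Function.update_of_ne hv, Function.update_of_ne hu] at e5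
      exact e5
  rw [Finset.card_product] at hcard
  have h8 : (Finset.univ : Finset (Bool × Bool × Bool)).card = 8 := by decide
  rw [h8, Finset.card_univ] at hcard
  rw [mul_comm]
  exact hcard

open Classical in
theorem sep_step {V : Type} [Fintype V] (Tr : Finset (V × V × V))
    (h : ∀ t ∈ Tr, t.2.2 ≠ t.1 ∧ t.2.2 ≠ t.2.1) :
    ∃ χ : V → Bool, 8 * (Tr.filter (fun t => ¬ Sep χ t)).card ≤ 7 * Tr.card := by
  have h1 : ∑ _χ : V → Bool, Tr.card ≤
      ∑ χ : V → Bool, 8 * (Tr.filter (fun t => Sep χ t)).card := by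
    have h2 : ∑ χ : V → Bool, 8 * (Tr.filter (fun t => Sep χ t)).card =
        ∑ t ∈ Tr, 8 * (Finset.univ.filter (fun χ : V → Bool => Sep χ t)).card := by
      simp only [Finset.card_filter, Finset.mul_sum]
      rw [Finset.sum_comm]
    rw [h2, Finset.sum_const, smul_eq_mul, mul_comm, ← smul_eq_mul, ← Finset.sum_const]
    refine Finset.sum_le_sum fun t ht => ?_
    rw [Finset.card_univ]
    exact sep_count t (h t ht).1 (h t ht).2
  obtain ⟨χ, _, hχ⟩ := Finset.exists_le_of_sum_le (Finset.univ_nonempty) h1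
  refine ⟨χ, ?_⟩
  have h3 := Finset.card_filter_add_card_filter_not (s := Tr) (fun t => Sep χ t)
  omega

open Classical in
theorem sep_iter {V : Type} [Fintype V] (n : ℕ) (Tr : Finset (V × V × V))
    (h : ∀ t ∈ Tr, t.2.2 ≠ t.1 ∧ t.2.2 ≠ t.2.1) :
    ∃ p : Fin n → V → Bool, 8 ^ n * (Tr.filter (fun t => ∀ i, ¬ Sep (p i) t)).card ≤
      7 ^ n * Tr.card := by
  induction n with
  | zero =>
    refine ⟨fun i => i.elim0, ?_⟩
    simp
  | succ n ih =>
    obtain ⟨p, hp⟩ := ih
    obtain ⟨χ, hχ⟩ := sep_step (Tr.filter (fun t => ∀ i, ¬ Sep (p i) t))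
      (fun t ht => h t (Finset.mem_filter.1 ht).1)
    refine ⟨Fin.cons χ p, ?_⟩
    have he : Tr.filter (fun t => ∀ i, ¬ Sep ((Fin.cons χ p : Fin (n+1) → V → Bool) i) t) =
        (Tr.filter (fun t => ∀ i, ¬ Sep (p i) t)).filter (fun t => ¬ Sep χ t) := by
      ext t
      simp only [Finset.mem_filter, Fin.forall_fin_succ, Fin.cons_zero, Fin.cons_succ]
      tauto
    rw [he]
    calc 8 ^ (n + 1) * ((Tr.filter (fun t => ∀ i, ¬ Sep (p i) t)).filter
          (fun t => ¬ Sep χ t)).card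
        = 8 ^ n * (8 * ((Tr.filter (fun t => ∀ i, ¬ Sep (p i) t)).filter
          (fun t => ¬ Sep χ t)).card) := by ring
      _ ≤ 8 ^ n * (7 * (Tr.filter (fun t => ∀ i, ¬ Sep (p i) t)).card) :=
          Nat.mul_le_mul_left _ hχ
      _ = 7 * (8 ^ n * (Tr.filter (fun t => ∀ i, ¬ Sep (p i) t)).card) := by ring
      _ ≤ 7 * (7 ^ n * Tr.card) := Nat.mul_le_mul_left _ hp
      _ = 7 ^ (n + 1) * Tr.card := by ring

/-- The codes. -/
theorem code_exists (V : Type) [Fintype V] (L : ℕ) (hL : 1 ≤ L) (hV : Fintype.card V ≤ 2 ^ L) :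
    ∃ p : V → Fin (16 * L) → Bool, ∀ u v w, w ≠ u → w ≠ v →
      ∃ i, p u i = true ∧ p v i = true ∧ p w i = false := by
  classical
  obtain ⟨p, hp⟩ := sep_iter (16 * L)
    (Finset.univ.filter (fun t : V × V × V => t.2.2 ≠ t.1 ∧ t.2.2 ≠ t.2.1))
    (fun t ht => (Finset.mem_filter.1 ht).2)
  refine ⟨fun v i => p i v, fun u v w h1 h2 => ?_⟩
  by_contra hno
  have hmem : (u, v, w) ∈ (Finset.univ.filter (fun t : V × V × V =>
      t.2.2 ≠ t.1 ∧ t.2.2 ≠ t.2.1)).filter (fun t => ∀ i, ¬ Sep (p i) t) := by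
    rw [Finset.mem_filter, Finset.mem_filter]
    refine ⟨⟨Finset.mem_univ _, h1, h2⟩, fun i hi => hno ⟨i, hi.1, hi.2.1, hi.2.2⟩⟩
  have hpos : 1 ≤ ((Finset.univ.filter (fun t : V × V × V =>
      t.2.2 ≠ t.1 ∧ t.2.2 ≠ t.2.1)).filter (fun t => ∀ i, ¬ Sep (p i) t)).card :=
    Finset.card_pos.2 ⟨_, hmem⟩
  have hcard : (Finset.univ.filter (fun t : V × V × V => t.2.2 ≠ t.1 ∧ t.2.2 ≠ t.2.1)).card ≤
      8 ^ L := by
    calc _ ≤ (Finset.univ : Finset (V × V × V)).card := Finset.card_filter_le _ _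
      _ = Fintype.card V * (Fintype.card V * Fintype.card V) := by
          rw [Finset.card_univ, Fintype.card_prod, Fintype.card_prod]
      _ ≤ 2 ^ L * (2 ^ L * 2 ^ L) := Nat.mul_le_mul hV (Nat.mul_le_mul hV hV)
      _ = 8 ^ L := by
          rw [← mul_pow, ← mul_pow]
          norm_num
  have h3 : 8 ^ (16 * L) ≤ 7 ^ (16 * L) * 8 ^ L := by
    calc 8 ^ (16 * L) = 8 ^ (16 * L) * 1 := by ring
      _ ≤ _ := Nat.mul_le_mul_left _ hpos
      _ ≤ _ := hp
      _ ≤ _ := Nat.mul_le_mul_left _ hcard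
  rw [pow_mul, pow_mul, ← mul_pow] at h3
  have h4 : (7 ^ 16 * 8) ^ L < (8 ^ 16) ^ L := Nat.pow_lt_pow_left (by norm_num) (by omega)
  omega

/-- The codes with one more coordinate, at which all codes are `0`. -/
theorem code_exists' (V : Type) [Fintype V] (L : ℕ) (hL : 1 ≤ L) (hV : Fintype.card V ≤ 2 ^ L) :
    ∃ p : V → Fin (16 * L + 1) → Bool, (∀ u v w, w ≠ u → w ≠ v →
      ∃ i, p u i = true ∧ p v i = true ∧ p w i = false) ∧ ∀ v, p v (Fin.last _) = false := by
  obtain ⟨p, hp⟩ := code_exists V L hL hV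
  refine ⟨fun v => Fin.snoc (p v) false, fun u v w h1 h2 => ?_, fun v => ?_⟩
  · obtain ⟨i, hi⟩ := hp u v w h1 h2
    exact ⟨i.castSucc, by simpa using hi⟩
  · simp

end P65H
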