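import Pool.Agent.Lib.P65.CircDefs

/-!
From gated 3-CNFs to colourings of gated graphs with `c ≥ 3` colours.
-/

namespace P65H

open P65

/-- Vertices: palette, literals, six vertices for each clause. -/
abbrev Vx (c N K : ℕ) := Fin c ⊕ (Fin N × Bool) ⊕ (Fin K × Fin 6)

/-- The edges inside the gadget of a clause. -/
def gd (t t' : Fin 6) : Bool :=
  decide ((t.1, t'.1) ∈ [(0,1),(1,0),(0,2),(2,0),(1,2),(2,1),(2,3),(3,2),(3,4),(4,3),(3,5),(5,3),
    (4,5),(5,4)])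

/-- The edges between the palette and the gadget of a clause. -/
def pg {c : ℕ} (G : PS) (j : Fin c) (t : Fin 6) : PS :=
  if j.1 = 1 ∧ t = 5 then G else PS.cst (decide (3 ≤ j.1 ∨ (j.1 = 2 ∧ t = 5)))

/-- The edges between the literals and the gadget of a clause. -/
def lg {N : ℕ} (ℓ : Fin 3 → Fin N × Bool) (l : Fin N × Bool) (t : Fin 6) : Bool :=
  decide ((t = 0 ∧ l = ℓ 0) ∨ (t = 1 ∧ l = ℓ 1) ∨ (t = 4 ∧ l = ℓ 2))

/-- The adjacency symbols. -/
def adS {c N K : ℕ} (G : Fin K → PS) (ℓ : Fin K → Fin 3 → Fin N × Bool) :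
    Vx c N K → Vx c N K → PS
  | Sum.inl i, Sum.inl j => PS.cst (decide (i ≠ j))
  | Sum.inl j, Sum.inr (Sum.inl _) => PS.cst (decide (2 ≤ j.1))
  | Sum.inr (Sum.inl _), Sum.inl j => PS.cst (decide (2 ≤ j.1))
  | Sum.inl j, Sum.inr (Sum.inr q) => pg (G q.1) j q.2
  | Sum.inr (Sum.inr q), Sum.inl j => pg (G q.1) j q.2
  | Sum.inr (Sum.inl l), Sum.inr (Sum.inl l') => PS.cst (decide (l.1 = l'.1 ∧ l.2 ≠ l'.2))
  | Sum.inr (Sum.inl l), Sum.inr (Sum.inr q) => PS.cst (lg (ℓ q.1) l q.2)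
  | Sum.inr (Sum.inr q), Sum.inr (Sum.inl l) => PS.cst (lg (ℓ q.1) l q.2)
  | Sum.inr (Sum.inr q), Sum.inr (Sum.inr q') => PS.cst (decide (q.1 = q'.1) && gd q.2 q'.2)

theorem gd_symm (t t' : Fin 6) : gd t t' = gd t' t := by
  revert t t'
  decide

theorem gd_irr (t : Fin 6) : gd t t = false := by
  revert t
  decide

theorem adS_symm {c N K : ℕ} (G : Fin K → PS) (ℓ : Fin K → Fin 3 → Fin N × Bool)
    (u v : Vx c N K) : adS G ℓ u v = adS G ℓ v u := by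
  rcases u with i | l | q <;> rcases v with j | l' | q'
  · simp only [adS]
    congr 1
    rw [decide_eq_decide]
    exact ⟨fun h => h.symm, fun h => h.symm⟩
  · rfl
  · rfl
  · rfl
  · simp only [adS]
    congr 1
    rw [decide_eq_decide]
    exact ⟨fun h => ⟨h.1.symm, h.2.symm⟩, fun h => ⟨h.1.symm, h.2.symm⟩⟩
  · rfl
  · rfl
  · rfl
  · simp only [adS]
    rw [gd_symm]
    congr 2
    rw [decide_eq_decide]
    exact ⟨fun h => h.symm, fun h => h.symm⟩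

theorem adS_irr {c N K : ℕ} (G : Fin K → PS) (ℓ : Fin K → Fin 3 → Fin N × Bool)
    (u : Vx c N K) : adS G ℓ u u = PS.cst false := by
  rcases u with i | l | q
  · simp [adS]
  · simp [adS]
  · simp [adS, gd_irr]

/-- The colour of the end of an OR gadget with false inputs. -/
theorem or_force {α : Type} {T F B u v w : α} (hu : u = T ∨ u = F ∨ u = B)
    (hv : v = T ∨ v = F ∨ v = B) (hw : w = T ∨ w = F ∨ w = B) (h1 : u ≠ F) (h2 : v ≠ F)
    (h3 : u ≠ v) (h4 : u ≠ w) (h5 : v ≠ w) : w = F := by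
  rcases hu with hu | hu | hu <;> rcases hv with hv | hv | hv <;> rcases hw with hw | hw | hw <;>
    subst hu <;> subst hv <;> subst hw <;> first | rfl | (exact absurd rfl ‹_›)

/-- From colourings to assignments. -/
theorem col_to_sat {c N K : ℕ} (hc : 3 ≤ c) (G : Fin K → PS) (ℓ : Fin K → Fin 3 → Fin N × Bool)
    (x : List Bool) (χ : Vx c N K → Fin c)
    (hχ : ∀ u v, (adS G ℓ u v).eval x = true → χ u ≠ χ v) :
    ∃ a : ℕ → Bool, ∀ k, (G k).eval x = true → ∃ r, a (ℓ k r).1.1 = (ℓ k r).2 := by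
  classical
  obtain ⟨P, hPd⟩ : ∃ P : Fin c → Fin c, ∀ j, P j = χ (Sum.inl j) := ⟨_, fun _ => rfl⟩
  have hPinj : Function.Injective P := by
    intro i j hij
    by_contra hne
    rw [hPd, hPd] at hij
    refine hχ (Sum.inl i) (Sum.inl j) ?_ hij
    simp only [adS, PS.eval]
    exact decide_eq_true hne
  have hPsurj : Function.Surjective P := Finite.injective_iff_surjective.1 hPinj
  obtain ⟨j0, h0⟩ : ∃ j : Fin c, j.1 = 0 := ⟨⟨0, by omega⟩, rfl⟩
  obtain ⟨j1, h1⟩ : ∃ j : Fin c, j.1 = 1 := ⟨⟨1, by omega⟩, rfl⟩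
  obtain ⟨j2, h2⟩ : ∃ j : Fin c, j.1 = 2 := ⟨⟨2, by omega⟩, rfl⟩
  have hthree : ∀ y : Fin c, (∀ j : Fin c, 3 ≤ j.1 → P j ≠ y) → y = P j0 ∨ y = P j1 ∨ y = P j2 := by
    intro y hy
    obtain ⟨j, rfl⟩ := hPsurj y
    rcases Nat.lt_or_ge j.1 3 with h | h
    · have h3 : j = j0 ∨ j = j1 ∨ j = j2 := by
        rcases (by omega : j.1 = 0 ∨ j.1 = 1 ∨ j.1 = 2) with h4 | h4 | h4
        · exact Or.inl (Fin.ext (by omega))
        · exact Or.inr (Or.inl (Fin.ext (by omega)))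
        · exact Or.inr (Or.inr (Fin.ext (by omega)))
      rcases h3 with h3 | h3 | h3 <;> rw [h3] <;> simp
    · exact absurd rfl (hy j h)
  -- literals
  have hlit : ∀ l : Fin N × Bool, χ (Sum.inr (Sum.inl l)) = P j0 ∨
      χ (Sum.inr (Sum.inl l)) = P j1 := by
    intro l
    have h3 : ∀ j : Fin c, 2 ≤ j.1 → P j ≠ χ (Sum.inr (Sum.inl l)) := by
      intro j hj
      rw [hPd]
      refine hχ (Sum.inl j) (Sum.inr (Sum.inl l)) ?_
      simp only [adS, PS.eval]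
      exact decide_eq_true hj
    rcases hthree _ (fun j hj => h3 j (by omega)) with h4 | h4 | h4
    · exact Or.inl h4
    · exact Or.inr h4
    · exact absurd h4.symm (h3 j2 (by omega))
  have hlit2 : ∀ (i : Fin N) (b : Bool),
      χ (Sum.inr (Sum.inl (i, b))) ≠ χ (Sum.inr (Sum.inl (i, !b))) := by
    intro i b
    refine hχ _ _ ?_
    simp [adS, PS.eval]
  -- gadget vertices
  have hgad : ∀ q : Fin K × Fin 6, χ (Sum.inr (Sum.inr q)) = P j0 ∨
      χ (Sum.inr (Sum.inr q)) = P j1 ∨ χ (Sum.inr (Sum.inr q)) = P j2 := by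
    intro q
    apply hthree
    intro j hj
    rw [hPd]
    refine hχ (Sum.inl j) (Sum.inr (Sum.inr q)) ?_
    simp only [adS, pg]
    rw [if_neg (by omega)]
    simp only [PS.eval]
    exact decide_eq_true (Or.inl hj)
  refine ⟨fun n => if h : n < N then decide (χ (Sum.inr (Sum.inl (⟨n, h⟩, true))) = P j0)
    else false, ?_⟩
  -- the value of a literal
  have hval : ∀ l : Fin N × Bool, χ (Sum.inr (Sum.inl l)) = P j0 →
      (fun n => if h : n < N then decide (χ (Sum.inr (Sum.inl (⟨n, h⟩, true))) = P j0)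
        else false) l.1.1 = l.2 := by
    rintro ⟨i, b⟩ hl
    simp only [i.2, dif_pos]
    cases b
    · rw [decide_eq_false_iff_not]
      intro h3
      exact hlit2 i false (hl.trans h3.symm)
    · exact decide_eq_true hl
  intro k hk
  by_contra hno
  have hF : ∀ r, χ (Sum.inr (Sum.inl (ℓ k r))) = P j1 := by
    intro r
    rcases hlit (ℓ k r) with h3 | h3
    · exact absurd ⟨r, hval (ℓ k r) h3⟩ hno
    · exact h3
  have hlg : ∀ (t : Fin 6) (r : Fin 3), lg (ℓ k) (ℓ k r) t = true →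
      χ (Sum.inr (Sum.inr (k, t))) ≠ P j1 := by
    intro t r h3
    rw [← hF r]
    refine hχ _ _ ?_
    simp only [adS, PS.eval]
    exact h3
  have hgg : ∀ t t' : Fin 6, gd t t' = true →
      χ (Sum.inr (Sum.inr (k, t))) ≠ χ (Sum.inr (Sum.inr (k, t'))) := by
    intro t t' h3
    refine hχ _ _ ?_
    simp only [adS, PS.eval, h3]
    simp
  have hw : χ (Sum.inr (Sum.inr (k, 2))) = P j1 :=
    or_force (hgad (k, 0)) (hgad (k, 1)) (hgad (k, 2)) (hlg 0 0 (by simp [lg]))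
      (hlg 1 1 (by simp [lg])) (hgg 0 1 (by decide)) (hgg 0 2 (by decide)) (hgg 1 2 (by decide))
  have hw' : χ (Sum.inr (Sum.inr (k, 5))) = P j1 :=
    or_force (hgad (k, 3)) (hgad (k, 4)) (hgad (k, 5)) (hw ▸ hgg 3 2 (by decide))
      (hlg 4 2 (by simp [lg])) (hgg 3 4 (by decide)) (hgg 3 5 (by decide)) (hgg 4 5 (by decide))
  refine hχ (Sum.inl j1) (Sum.inr (Sum.inr (k, 5))) ?_ ?_
  · simp only [adS, pg]
    rw [if_pos ⟨h1, trivial⟩]
    exact hk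
  · rw [← hPd, hw']

/-- The colours of the gadget vertices. -/
def c6 (b0 b1 b2 : Bool) (t : Fin 6) : ℕ :=
  let g := fun (x y : Bool) => if x then ((1 : ℕ), 2, 0) else if y then (2, 1, 0) else (0, 2, 1)
  let p := g b0 b1
  let q := g (b0 || b1) b2
  match t with
  | 0 => p.1
  | 1 => p.2.1
  | 2 => p.2.2
  | 3 => q.1
  | 4 => q.2.1
  | 5 => q.2.2

/-- The colour of a literal. -/
def lc (b : Bool) : ℕ := if b then 0 else 1

theorem c6_lt (b0 b1 b2 : Bool) (t : Fin 6) : c6 b0 b1 b2 t < 3 := by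
  revert b0 b1 b2 t
  decide

theorem c6_gd (b0 b1 b2 : Bool) (t t' : Fin 6) (h : gd t t' = true) :
    c6 b0 b1 b2 t ≠ c6 b0 b1 b2 t' := by
  revert b0 b1 b2 t t'
  decide

theorem c6_lits (b0 b1 b2 : Bool) : c6 b0 b1 b2 0 ≠ lc b0 ∧ c6 b0 b1 b2 1 ≠ lc b1 ∧
    c6 b0 b1 b2 4 ≠ lc b2 := by
  revert b0 b1 b2
  decide

theorem c6_end (b0 b1 b2 : Bool) : c6 b0 b1 b2 5 ≠ 2 ∧
    ((b0 || b1 || b2) = true → c6 b0 b1 b2 5 ≠ 1) := by
  revert b0 b1 b2
  decide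

/-- The colour numbers. -/
def cn {c N K : ℕ} (ℓ : Fin K → Fin 3 → Fin N × Bool) (a : ℕ → Bool) : Vx c N K → ℕ
  | Sum.inl j => j.1
  | Sum.inr (Sum.inl l) => lc (decide (a l.1.1 = l.2))
  | Sum.inr (Sum.inr q) => c6 (decide (a (ℓ q.1 0).1.1 = (ℓ q.1 0).2))
      (decide (a (ℓ q.1 1).1.1 = (ℓ q.1 1).2)) (decide (a (ℓ q.1 2).1.1 = (ℓ q.1 2).2)) q.2

theorem cn_lt {c N K : ℕ} (hc : 3 ≤ c) (ℓ : Fin K → Fin 3 → Fin N × Bool) (a : ℕ → Bool)
    (v : Vx c N K) : cn ℓ a v < c := by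
  rcases v with j | l | q
  · exact j.2
  · simp only [cn, lc]
    split_ifs <;> omega
  · exact lt_of_lt_of_le (c6_lt _ _ _ _) hc

theorem lc_lt (b : Bool) : lc b < 2 := by
  unfold lc
  split_ifs <;> omega

/-- palette against gadget -/
theorem cn_pg {c N K : ℕ} (G : Fin K → PS) (ℓ : Fin K → Fin 3 → Fin N × Bool)
    (x : List Bool) (a : ℕ → Bool)
    (ha : ∀ k, (G k).eval x = true → ∃ r, a (ℓ k r).1.1 = (ℓ k r).2)
    (j : Fin c) (q : Fin K × Fin 6) (h : (pg (G q.1) j q.2).eval x = true) :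
    cn (c := c) ℓ a (Sum.inl j) ≠ cn (c := c) ℓ a (Sum.inr (Sum.inr q)) := by
  simp only [cn]
  unfold pg at h
  split_ifs at h with h1
  · rw [h1.1, h1.2]
    intro h2
    refine (c6_end _ _ _).2 ?_ h2.symm
    obtain ⟨r, hr⟩ := ha q.1 h
    fin_cases r
    · simp only [Fin.zero_eta, Fin.isValue] at hr
      simp [hr]
    · simp only [Fin.mk_one, Fin.isValue] at hr
      simp [hr]
    · simp only [Fin.reduceFinMk, Fin.isValue] at hr
      simp [hr]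
  · simp only [PS.eval] at h
    rcases of_decide_eq_true h with h2 | h2
    · intro h3
      have := c6_lt (decide (a (ℓ q.1 0).1.1 = (ℓ q.1 0).2))
        (decide (a (ℓ q.1 1).1.1 = (ℓ q.1 1).2)) (decide (a (ℓ q.1 2).1.1 = (ℓ q.1 2).2)) q.2
      omega
    · rw [h2.1, h2.2]
      exact (c6_end _ _ _).1.symm

/-- literal against gadget -/
theorem cn_lg {c N K : ℕ} (ℓ : Fin K → Fin 3 → Fin N × Bool) (a : ℕ → Bool)
    (l : Fin N × Bool) (q : Fin K × Fin 6) (h : lg (ℓ q.1) l q.2 = true) :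
    cn (c := c) ℓ a (Sum.inr (Sum.inl l)) ≠ cn (c := c) ℓ a (Sum.inr (Sum.inr q)) := by
  simp only [cn]
  have h1 := c6_lits (decide (a (ℓ q.1 0).1.1 = (ℓ q.1 0).2))
    (decide (a (ℓ q.1 1).1.1 = (ℓ q.1 1).2)) (decide (a (ℓ q.1 2).1.1 = (ℓ q.1 2).2))
  rcases of_decide_eq_true h with ⟨h2, h3⟩ | ⟨h2, h3⟩ | ⟨h2, h3⟩
  · rw [h2, h3]
    exact h1.1.symm
  · rw [h2, h3]
    exact h1.2.1.symm
  · rw [h2, h3]
    exact h1.2.2.symm

/-- From assignments to colourings. -/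
theorem sat_to_col {c N K : ℕ} (hc : 3 ≤ c) (G : Fin K → PS) (ℓ : Fin K → Fin 3 → Fin N × Bool)
    (x : List Bool) (a : ℕ → Bool)
    (ha : ∀ k, (G k).eval x = true → ∃ r, a (ℓ k r).1.1 = (ℓ k r).2) :
    ∃ χ : Vx c N K → Fin c, ∀ u v, (adS G ℓ u v).eval x = true → χ u ≠ χ v := by
  refine ⟨fun v => ⟨cn ℓ a v, cn_lt hc ℓ a v⟩, ?_⟩
  intro u v huv he
  have he' : cn ℓ a u = cn ℓ a v := congrArg Fin.val he
  clear he
  rcases u with i | l | q <;> rcases v with j | l' | q'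
  · simp only [adS, PS.eval] at huv
    exact of_decide_eq_true huv (Fin.ext he')
  · simp only [adS, PS.eval] at huv
    have h1 := of_decide_eq_true huv
    have h2 := lc_lt (decide (a l'.1.1 = l'.2))
    simp only [cn] at he'
    omega
  · exact cn_pg G ℓ x a ha i q' huv he'
  · simp only [adS, PS.eval] at huv
    have h1 := of_decide_eq_true huv
    have h2 := lc_lt (decide (a l.1.1 = l.2))
    simp only [cn] at he'
    omega
  · simp only [adS, PS.eval] at huv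
    obtain ⟨h1, h2⟩ := of_decide_eq_true huv
    simp only [cn] at he'
    rw [h1] at he'
    have h3 : ∀ s t b : Bool, s ≠ t → lc (decide (b = s)) ≠ lc (decide (b = t)) := by decide
    exact h3 _ _ _ h2 he'
  · exact cn_lg ℓ a l q' huv he'
  · exact cn_pg G ℓ x a ha j q huv he'.symm
  · exact cn_lg ℓ a l' q huv he'.symm
  · simp only [adS, PS.eval, Bool.and_eq_true] at huv
    have h1 := of_decide_eq_true huv.1
    simp only [cn] at he'
    rw [h1] at he'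
    exact c6_gd _ _ _ _ _ huv.2 he'

/-- Padding a clause to three literals. -/
theorem pad3 (N : ℕ) (cl : List (ℕ × Bool)) (h1 : cl ≠ []) (h2 : cl.length ≤ 3)
    (h3 : ∀ l ∈ cl, l.1 < N) :
    ∃ ℓ : Fin 3 → Fin N × Bool, ∀ a : ℕ → Bool,
      (∃ r, a (ℓ r).1.1 = (ℓ r).2) ↔ ∃ l ∈ cl, a l.1 = l.2 := by
  rcases cl with _ | ⟨l0, _ | ⟨l1, _ | ⟨l2, _ | ⟨l3, t⟩⟩⟩⟩
  · exact absurd rfl h1
  · refine ⟨fun _ => (⟨l0.1, h3 l0 (by simp)⟩, l0.2), fun a => ?_⟩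
    simp
  · refine ⟨![(⟨l0.1, h3 l0 (by simp)⟩, l0.2), (⟨l1.1, h3 l1 (by simp)⟩, l1.2),
      (⟨l1.1, h3 l1 (by simp)⟩, l1.2)], fun a => ?_⟩
    simp [Fin.exists_fin_succ]
  · refine ⟨![(⟨l0.1, h3 l0 (by simp)⟩, l0.2), (⟨l1.1, h3 l1 (by simp)⟩, l1.2),
      (⟨l2.1, h3 l2 (by simp)⟩, l2.2)], fun a => ?_⟩
    simp [Fin.exists_fin_succ]
  · simp only [List.length_cons] at h2
    omega

/-- The gated graph of a gated CNF. -/
theorem gcol {c : ℕ} (hc : 3 ≤ c) (N : ℕ) (Φ : List (PS × List (ℕ × Bool)))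
    (hΦ : ∀ cl ∈ Φ, cl.2 ≠ [] ∧ cl.2.length ≤ 3 ∧ ∀ l ∈ cl.2, l.1 < N) :
    ∃ S : Vx c N Φ.length → Vx c N Φ.length → PS, (∀ u x, (S u u).eval x = false) ∧
      (∀ u v x, (S u v).eval x = (S v u).eval x) ∧
      ∀ x : List Bool, (∃ χ : Vx c N Φ.length → Fin c, ∀ u v, (S u v).eval x = true → χ u ≠ χ v) ↔
        ∃ a : ℕ → Bool, ∀ cl ∈ Φ, cl.1.eval x = true → ∃ l ∈ cl.2, a l.1 = l.2 := by
  have h1 : ∀ k : Fin Φ.length, ∃ ℓ : Fin 3 → Fin N × Bool, ∀ a : ℕ → Bool,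
      (∃ r, a (ℓ r).1.1 = (ℓ r).2) ↔ ∃ l ∈ (Φ[k.1]).2, a l.1 = l.2 := by
    intro k
    have h2 := hΦ (Φ[k.1]) (List.getElem_mem _)
    exact pad3 N _ h2.1 h2.2.1 h2.2.2
  choose ℓ hℓ using h1
  refine ⟨adS (fun k => (Φ[k.1]).1) ℓ, ?_, ?_, ?_⟩
  · intro u x
    rw [adS_irr]
    rfl
  · intro u v x
    rw [adS_symm]
  · intro x
    constructor
    · rintro ⟨χ, hχ⟩
      obtain ⟨a, ha⟩ := col_to_sat hc _ ℓ x χ hχ
      refine ⟨a, fun cl hcl hx => ?_⟩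
      obtain ⟨k, hk, rfl⟩ := List.mem_iff_getElem.1 hcl
      exact (hℓ ⟨k, hk⟩ a).1 (ha ⟨k, hk⟩ hx)
    · rintro ⟨a, ha⟩
      refine sat_to_col hc _ ℓ x a (fun k hk => ?_)
      exact (hℓ k a).2 (ha _ (List.getElem_mem _) hk)

end P65H
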