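import Pool.Agent.Lib.P65H.Horn
import Pool.Agent.Lib.P65T.HSProj

/-!
The function of a graph: it accepts the codes of the vertices, the point `1...1`, the ANDs of the
codes of two vertices that are not adjacent, and everything strictly below the AND of the codes of
two vertices. It is the OR of at most `c` functions of a class `H` between the pure Horn functions
and the linked functions if and only if the graph has a proper colouring with `c` colours.
-/

namespace P65H

open P65 P65T

variable {V ι : Type}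

/-- The separation property of the codes. -/
def CodeSep (p : V → ι → Bool) : Prop :=
  ∀ u v w, w ≠ u → w ≠ v → ∃ i, p u i = true ∧ p v i = true ∧ p w i = false

/-- Strictly below the AND of two codes. -/
def Low (p : V → ι → Bool) (z : ι → Bool) : Prop := ∃ u v, u ≠ v ∧ z < p u ⊓ p v

/-- The AND of the codes of two vertices that are not adjacent. -/
def Mid (p : V → ι → Bool) (adj : V → V → Prop) (z : ι → Bool) : Prop :=
  ∃ u v, u ≠ v ∧ ¬ adj u v ∧ z = p u ⊓ p v

open Classical in
/-- The function of the graph. -/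
noncomputable def gfun (p : V → ι → Bool) (adj : V → V → Prop) (z : ι → Bool) : Bool :=
  decide ((∃ v, z = p v) ∨ z = ⊤ ∨ Low p z ∨ Mid p adj z)

theorem gfun_iff (p : V → ι → Bool) (adj : V → V → Prop) (z : ι → Bool) :
    gfun p adj z = true ↔ ((∃ v, z = p v) ∨ z = ⊤ ∨ Low p z ∨ Mid p adj z) := by
  simp only [gfun, decide_eq_true_eq]

theorem pair_le {p : V → ι → Bool} (hp : CodeSep p) {u v w : V} (h : p u ⊓ p v ≤ p w) :
    w = u ∨ w = v := by
  by_contra hno
  rw [not_or] at hno
  obtain ⟨i, h1, h2, h3⟩ := hp u v w hno.1 hno.2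
  have h4 := h i
  rw [Pi.inf_apply, h1, h2, h3] at h4
  have h5 : (true ⊓ true : Bool) ≤ false := h4
  exact absurd h5 (by decide)

theorem code_le {p : V → ι → Bool} (hp : CodeSep p) {u w : V} (h : p u ≤ p w) : w = u := by
  have h1 : p u ⊓ p u ≤ p w := by
    rw [inf_idem]
    exact h
  rcases pair_le hp h1 with h2 | h2 <;> exact h2

/-- A pair is determined by any AND of codes above its AND of codes. -/
theorem pair_pair {p : V → ι → Bool} (hp : CodeSep p) {u v u' v' : V} (hne : u' ≠ v')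
    (h : p u ⊓ p v ≤ p u' ⊓ p v') : (u' = u ∧ v' = v) ∨ (u' = v ∧ v' = u) := by
  have h1 := pair_le hp (h.trans inf_le_left)
  have h2 := pair_le hp (h.trans inf_le_right)
  rcases h1 with h1 | h1 <;> rcases h2 with h2 | h2
  · exact absurd (h1.trans h2.symm) hne
  · exact Or.inl ⟨h1, h2⟩
  · exact Or.inr ⟨h1, h2⟩
  · exact absurd (h1.trans h2.symm) hne

/-- The points above the AND of the codes of two adjacent vertices. -/
theorem gfun_adj {p : V → ι → Bool} (hp : CodeSep p) {adj : V → V → Prop}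
    (hs : ∀ u v, adj u v → adj v u) {u v : V} (h : adj u v) {z : ι → Bool}
    (hz : gfun p adj z = true) (hle : p u ⊓ p v ≤ z) (hzt : z ≠ ⊤) : z = p u ∨ z = p v := by
  rw [gfun_iff] at hz
  rcases hz with ⟨w, hw⟩ | ht | ⟨u', v', hne', hl⟩ | ⟨u', v', hne', hna, he⟩
  · rw [hw] at hle
    rcases pair_le hp hle with h1 | h1
    · exact Or.inl (by rw [hw, h1])
    · exact Or.inr (by rw [hw, h1])
  · exact absurd ht hzt
  · exfalso
    rcases pair_pair hp hne' (hle.trans hl.le) with ⟨h1, h2⟩ | ⟨h1, h2⟩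
    · rw [h1, h2] at hl
      exact lt_irrefl _ (lt_of_le_of_lt hle hl)
    · rw [h1, h2, inf_comm] at hl
      exact lt_irrefl _ (lt_of_le_of_lt hle hl)
  · exfalso
    rw [he] at hle
    rcases pair_pair hp hne' hle with ⟨h1, h2⟩ | ⟨h1, h2⟩
    · rw [h1, h2] at hna
      exact hna h
    · rw [h1, h2] at hna
      exact hna (hs _ _ h)

/-- The lower part is a down-set. -/
theorem down {p : V → ι → Bool} {adj : V → V → Prop} {x y : ι → Bool}
    (h : Low p x ∨ Mid p adj x) (hy : y ≤ x) : Low p y ∨ Mid p adj y := by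
  rcases h with ⟨u, v, hne, h⟩ | ⟨u, v, hne, hna, h⟩
  · exact Or.inl ⟨u, v, hne, lt_of_le_of_lt hy h⟩
  · rcases eq_or_lt_of_le hy with h1 | h1
    · exact Or.inr ⟨u, v, hne, hna, h1.trans h⟩
    · exact Or.inl ⟨u, v, hne, h ▸ h1⟩

open Classical in
/-- The function of a colour class. -/
noncomputable def cfun {c : ℕ} (p : V → ι → Bool) (adj : V → V → Prop) (χ : V → Fin c)
    (j : Fin c) (z : ι → Bool) : Bool :=
  decide ((∃ v, χ v = j ∧ z = p v) ∨ z = ⊤ ∨ Low p z ∨ Mid p adj z)

theorem cfun_iff {c : ℕ} (p : V → ι → Bool) (adj : V → V → Prop) (χ : V → Fin c)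
    (j : Fin c) (z : ι → Bool) :
    cfun p adj χ j z = true ↔ ((∃ v, χ v = j ∧ z = p v) ∨ z = ⊤ ∨ Low p z ∨ Mid p adj z) := by
  simp only [cfun, decide_eq_true_eq]

theorem cfun_closed {c : ℕ} {p : V → ι → Bool} {adj : V → V → Prop} {χ : V → Fin c}
    (hχ : ∀ u v, adj u v → χ u ≠ χ v) (j : Fin c) : ClosedAnd (cfun p adj χ j) := by
  intro x y hx hy
  have hx0 := hx
  have hy0 := hy
  rw [cfun_iff] at hx hy
  rcases hx with ⟨u, hu, hxu⟩ | hx | hx
  · rcases hy with ⟨v, hv, hyv⟩ | hy | hy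
    · rw [cfun_iff]
      by_cases huv : u = v
      · left
        refine ⟨u, hu, ?_⟩
        rw [hxu, hyv, huv, inf_idem]
      · right
        right
        right
        refine ⟨u, v, huv, ?_, by rw [hxu, hyv]⟩
        intro ha
        exact hχ u v ha (hu.trans hv.symm)
    · rw [hy, inf_top_eq]
      exact hx0
    · rw [cfun_iff]
      exact Or.inr (Or.inr (down hy inf_le_right))
  · rw [hx, top_inf_eq]
    exact hy0
  · rw [cfun_iff]
    exact Or.inr (Or.inr (down hx inf_le_left))

theorem core [Fintype ι] {p : V → ι → Bool} (hp : CodeSep p) (o : ι) (ho : ∀ v, p v o = false)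
    {adj : V → V → Prop}
    (hs : ∀ u v, adj u v → adj v u) (hirr : ∀ u, ¬ adj u u) {c : ℕ} (hc : 1 ≤ c)
    (H : ((ι → Bool) → Bool) → Prop) (hH1 : ∀ g, IsPureHorn g → H g)
    (hH2 : ∀ g, H g → IsLinked g) :
    OrOf H (gfun p adj) c ↔ ∃ χ : V → Fin c, ∀ u v, adj u v → χ u ≠ χ v := by
  constructor
  · rintro ⟨gs, hlen, hcl, hor⟩
    have h1 : ∀ v : V, ∃ i : Fin c, ∃ h : i.1 < gs.length, gs[i.1] (p v) = true := by
      intro v
      have h2 : gfun p adj (p v) = true := by
        rw [gfun_iff]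
        exact Or.inl ⟨v, rfl⟩
      obtain ⟨g, hg, hgv⟩ := (hor (p v)).1 h2
      obtain ⟨i, hi, rfl⟩ := List.mem_iff_getElem.1 hg
      exact ⟨⟨i, lt_of_lt_of_le hi hlen⟩, hi, hgv⟩
    choose χ hχ1 hχ2 using h1
    refine ⟨χ, fun u v ha he => ?_⟩
    have hne : u ≠ v := by
      rintro rfl
      exact hirr u ha
    have h3 : ∀ (i j : ℕ) (hi : i < gs.length) (hj : j < gs.length), i = j →
        gs[j] (p v) = true → gs[i] (p v) = true := by
      intro i j hi hj hij h4
      subst hij
      exact h4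
    have h4 := h3 _ _ (hχ1 u) (hχ1 v) (congrArg Fin.val he) (hχ2 v)
    have hlt : ∀ a b : V, a ≠ b → ∃ i, p a i = true ∧ p b i = false := by
      intro a b hab
      obtain ⟨i, h5, _, h6⟩ := hp a a b hab.symm hab.symm
      exact ⟨i, h5, h6⟩
    obtain ⟨i, hi1, hi2⟩ := hlt u v hne
    obtain ⟨j, hj1, hj2⟩ := hlt v u hne.symm
    obtain ⟨z, hz, hzu, hzv, hzi⟩ := hH2 _ (hcl _ (List.getElem_mem (hχ1 u))) (p u) (p v)
      (hχ2 u) h4 ⟨i, hi1, hi2⟩ ⟨j, hj2, hj1⟩
    have hfz : gfun p adj z = true := (hor z).2 ⟨_, List.getElem_mem (hχ1 u), hz⟩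
    have hle : p u ⊓ p v ≤ z := by
      intro k
      rw [Pi.inf_apply]
      by_cases hk : p u k = p v k
      · rw [hzi k hk, ← hk]
        simp
      · revert hk
        cases p u k <;> cases p v k <;> simp
    have hzt : z ≠ ⊤ := by
      intro h5
      have h6 := hzi o (by rw [ho, ho])
      rw [h5, ho, Pi.top_apply] at h6
      exact absurd h6 (by simp)
    rcases gfun_adj hp hs ha hfz hle hzt with h5 | h5
    · exact hzu h5
    · exact hzv h5
  · rintro ⟨χ, hχ⟩
    refine ⟨List.ofFn (fun j : Fin c => cfun p adj χ j), by simp, ?_, ?_⟩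
    · intro g hg
      rw [List.mem_ofFn] at hg
      obtain ⟨j, rfl⟩ := hg
      refine hH1 _ (pureHorn_of_closed (cfun_closed hχ j) ?_)
      rw [cfun_iff]
      exact Or.inr (Or.inl rfl)
    · intro z
      rw [gfun_iff]
      constructor
      · rintro (⟨v, hv⟩ | h)
        · refine ⟨cfun p adj χ (χ v), by rw [List.mem_ofFn]; exact ⟨χ v, rfl⟩, ?_⟩
          rw [cfun_iff]
          exact Or.inl ⟨v, rfl, hv⟩
        · refine ⟨cfun p adj χ ⟨0, hc⟩, by rw [List.mem_ofFn]; exact ⟨_, rfl⟩, ?_⟩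
          rw [cfun_iff]
          exact Or.inr h
      · rintro ⟨g, hg, hgz⟩
        rw [List.mem_ofFn] at hg
        obtain ⟨j, rfl⟩ := hg
        rw [cfun_iff] at hgz
        rcases hgz with ⟨v, _, hv⟩ | h
        · exact Or.inl ⟨v, hv⟩
        · exact Or.inr h

/-- Each value of the function of a gated graph is a projection symbol. -/
theorem core_proj {p : V → ι → Bool} (hp : CodeSep p) (S : V → V → PS)
    (hS : ∀ u v x, (S u v).eval x = (S v u).eval x) (z : ι → Bool) :
    ∃ q : PS, ∀ x : List Bool, q.eval x = gfun p (fun u v => (S u v).eval x = true) z := by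
  classical
  by_cases h1 : (∃ v, z = p v) ∨ z = ⊤ ∨ Low p z
  · refine ⟨PS.cst true, fun x => ?_⟩
    symm
    change _ = true
    rw [gfun_iff]
    rcases h1 with h1 | h1 | h1
    · exact Or.inl h1
    · exact Or.inr (Or.inl h1)
    · exact Or.inr (Or.inr (Or.inl h1))
  rw [not_or, not_or] at h1
  by_cases h2 : ∃ u v, u ≠ v ∧ z = p u ⊓ p v
  · obtain ⟨u, v, hne, hz⟩ := h2
    refine ⟨negS (S u v), fun x => ?_⟩
    rw [negS_eval]
    rw [Bool.eq_iff_iff, gfun_iff]
    constructor
    · intro h3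
      rw [Bool.not_eq_true'] at h3
      refine Or.inr (Or.inr (Or.inr ⟨u, v, hne, ?_, hz⟩))
      change ¬ (S u v).eval x = true
      rw [h3]
      simp
    · rintro (h3 | h3 | h3 | ⟨u', v', hne', hna, hz'⟩)
      · exact absurd h3 h1.1
      · exact absurd h3 h1.2.1
      · exact absurd h3 h1.2.2
      · rw [Bool.not_eq_true']
        change ¬ (S u' v').eval x = true at hna
        rw [Bool.not_eq_true] at hna
        rcases pair_pair hp hne' ((hz.symm.trans hz').le) with ⟨e1, e2⟩ | ⟨e1, e2⟩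
        · rw [← e1, ← e2]
          exact hna
        · rw [← e1, ← e2, hS]
          exact hna
  · refine ⟨PS.cst false, fun x => ?_⟩
    symm
    change _ = false
    rw [← Bool.not_eq_true, gfun_iff]
    rintro (h3 | h3 | h3 | ⟨u', v', hne', _, hz'⟩)
    · exact h1.1 h3
    · exact h1.2.1 h3
    · exact h1.2.2 h3
    · exact h2 ⟨u', v', hne', hz'⟩

end P65H
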