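import Pool.Agent.Lib.P65H.Horn
import Pool.Agent.Lib.P65T.Defs

/-!
Two Horn CNFs: a function is the OR of at most two Horn CNFs if and only if the graph on its
accepted points, in which two points are joined if their bitwise AND is rejected, is bipartite.
The unate functions are linked.
-/

namespace P65H

open P65 P65T

variable {ι : Type}

theorem two_closed (f : (ι → Bool) → Bool) :
    OrOf ClosedAnd f 2 ↔ ∃ χ : (ι → Bool) → Bool, ∀ x y, f x = true → f y = true →
      f (x ⊓ y) = false → χ x ≠ χ y := by
  classical
  constructor
  · rintro ⟨gs, hlen, hcl, hor⟩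
    have hbad : ∀ g ∈ gs, ∀ x y, g x = true → g y = true → f (x ⊓ y) = false → False := by
      intro g hg x y hx hy hxy
      have h1 := (hor (x ⊓ y)).2 ⟨g, hg, hcl g hg x y hx hy⟩
      rw [hxy] at h1
      exact absurd h1 (by simp)
    rcases gs with _ | ⟨g, gs⟩
    · refine ⟨fun _ => true, fun x y hx _ _ => ?_⟩
      obtain ⟨g, hg, _⟩ := (hor x).1 hx
      simp at hg
    · refine ⟨fun x => g x, fun x y hx hy hxy he => ?_⟩
      change g x = g y at he
      rcases hgx : g x with _ | _
      · rw [hgx] at he
        obtain ⟨g1, hg1, h1⟩ := (hor x).1 hx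
        obtain ⟨g2, hg2, h2⟩ := (hor y).1 hy
        have hne1 : g1 ∈ gs := by
          rcases List.mem_cons.1 hg1 with h | h
          · rw [h, hgx] at h1
            exact absurd h1 (by simp)
          · exact h
        have hne2 : g2 ∈ gs := by
          rcases List.mem_cons.1 hg2 with h | h
          · rw [h, ← he] at h2
            exact absurd h2 (by simp)
          · exact h
        have h12 : g1 = g2 := by
          rcases gs with _ | ⟨g', _ | ⟨g'', t⟩⟩
          · simp at hne1
          · simp only [List.mem_singleton] at hne1 hne2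
            rw [hne1, hne2]
          · simp only [List.length_cons] at hlen
            omega
        subst h12
        exact hbad g1 hg1 x y h1 h2 hxy
      · rw [hgx] at he
        exact hbad g List.mem_cons_self x y hgx he.symm hxy
  · rintro ⟨χ, hχ⟩
    -- `free z`: no conflict at `z`
    let free : (ι → Bool) → Prop := fun z => ∀ y, f y = true → f (z ⊓ y) = true
    let gb : Bool → (ι → Bool) → Bool := fun b z => decide (f z = true ∧ (free z ∨ χ z = b))
    have hgb : ∀ b z, gb b z = true ↔ f z = true ∧ (free z ∨ χ z = b) := by
      intro b z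
      simp only [gb, decide_eq_true_eq]
    have hnf : ∀ z, ¬ free z → ∃ y, f y = true ∧ f (z ⊓ y) = false := by
      intro z hz
      simp only [free, not_forall] at hz
      obtain ⟨y, h1, h2⟩ := hz
      exact ⟨y, h1, by simpa using h2⟩
    have hclosed : ∀ b, ClosedAnd (gb b) := by
      intro b x y hx hy
      rw [hgb] at hx hy ⊢
      have hm : f (x ⊓ y) = true := by
        by_contra h1
        rw [Bool.not_eq_true] at h1
        have hfx : ¬ free x := by
          intro h2
          rw [h2 y hy.1] at h1
          exact absurd h1 (by simp)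
        have hfy : ¬ free y := by
          intro h2
          rw [inf_comm, h2 x hx.1] at h1
          exact absurd h1 (by simp)
        exact hχ x y hx.1 hy.1 h1
          ((hx.2.resolve_left hfx).trans (hy.2.resolve_left hfy).symm)
      refine ⟨hm, ?_⟩
      by_cases hfm : free (x ⊓ y)
      · exact Or.inl hfm
      right
      obtain ⟨z, hz, hmz⟩ := hnf _ hfm
      have hmz' := hχ _ _ hm hz hmz
      -- one of `x ⊓ z`, `y ⊓ z` is rejected
      have hkey : f (x ⊓ z) = false ∨ f (y ⊓ z) = false := by
        by_contra h1
        rw [not_or, Bool.not_eq_false, Bool.not_eq_false] at h1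
        have e1 : (x ⊓ z) ⊓ (y ⊓ z) = (x ⊓ y) ⊓ z := by
          rw [← inf_inf_distrib_right]
        have e2 : (x ⊓ z) ⊓ (x ⊓ y) = (x ⊓ y) ⊓ z := by
          rw [← inf_inf_distrib_left, inf_comm z y, inf_assoc]
        have e3 : (y ⊓ z) ⊓ (x ⊓ y) = (x ⊓ y) ⊓ z := by
          rw [inf_comm x y, ← inf_inf_distrib_left, inf_comm z x, inf_assoc]
        have h2 := hχ _ _ h1.1 h1.2 (by rw [e1]; exact hmz)
        have h3 := hχ _ _ h1.1 hm (by rw [e2]; exact hmz)
        have h4 := hχ _ _ h1.2 hm (by rw [e3]; exact hmz)
        revert h2 h3 h4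
        cases χ (x ⊓ z) <;> cases χ (y ⊓ z) <;> cases χ (x ⊓ y) <;> simp
      have hfin : ∀ w, f w = true → (free w ∨ χ w = b) → f (w ⊓ z) = false →
          χ (x ⊓ y) = b := by
        intro w hw hwb hwz
        have hfw : ¬ free w := by
          intro h2
          rw [h2 z hz] at hwz
          exact absurd hwz (by simp)
        have h5 := hwb.resolve_left hfw
        have h6 := hχ w z hw hz hwz
        rw [← h5]
        revert h6 hmz'
        cases χ w <;> cases χ z <;> cases χ (x ⊓ y) <;> simp
      rcases hkey with h1 | h1
      · exact hfin x hx.1 hx.2 h1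
      · exact hfin y hy.1 hy.2 h1
    refine ⟨[gb true, gb false], by simp, ?_, ?_⟩
    · intro g hg
      simp only [List.mem_cons, List.not_mem_nil, or_false] at hg
      rcases hg with rfl | rfl
      · exact hclosed true
      · exact hclosed false
    · intro z
      constructor
      · intro hz
        rcases hc : χ z with _ | _
        · exact ⟨gb false, by simp, (hgb _ _).2 ⟨hz, Or.inr hc⟩⟩
        · exact ⟨gb true, by simp, (hgb _ _).2 ⟨hz, Or.inr hc⟩⟩
      · rintro ⟨g, hg, hgz⟩
        simp only [List.mem_cons, List.not_mem_nil, or_false] at hg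
        rcases hg with rfl | rfl
        · exact ((hgb _ _).1 hgz).1
        · exact ((hgb _ _).1 hgz).1

theorem unate_linked {g : (ι → Bool) → Bool} (h : IsUnate g) : IsLinked g := by
  classical
  obtain ⟨c, hc⟩ := h
  -- flipping the coordinate `i` of `x` towards `c`
  have key : ∀ (x y : ι → Bool) (i j : ι), g x = true → x i ≠ y i → x j ≠ y j → i ≠ j →
      c i = y i → ∃ z, g z = true ∧ z ≠ x ∧ z ≠ y ∧ ∀ k, x k = y k → z k = x k := by
    intro x y i j hx hi hj hij hci
    refine ⟨Function.update x i (y i), ?_, ?_, ?_, ?_⟩
    · refine hc x _ (fun k => ?_) hx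
      by_cases hk : k = i
      · subst hk
        right
        rw [Function.update_self, hci]
      · left
        rw [Function.update_of_ne hk]
    · intro he
      have h1 := congrFun he i
      rw [Function.update_self] at h1
      exact hi h1.symm
    · intro he
      have h1 := congrFun he j
      rw [Function.update_of_ne hij.symm] at h1
      exact hj h1
    · intro k hk
      by_cases hki : k = i
      · subst hki
        rw [Function.update_self, hk]
      · rw [Function.update_of_ne hki]
  rintro x y hx hy ⟨i, hi1, hi2⟩ ⟨j, hj1, hj2⟩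
  have hi : x i ≠ y i := by
    rw [hi1, hi2]
    simp
  have hj : x j ≠ y j := by
    rw [hj1, hj2]
    simp
  have hij : i ≠ j := by
    rintro rfl
    rw [hi1] at hj1
    exact absurd hj1 (by simp)
  by_cases hci : c i = y i
  · exact key x y i j hx hi hj hij hci
  · have hci' : c i = x i := by
      revert hi hci
      cases c i <;> cases x i <;> cases y i <;> simp
    obtain ⟨z, h1, h2, h3, h4⟩ := key y x i j hy hi.symm hj.symm hij hci'
    exact ⟨z, h1, h3, h2, fun k hk => by rw [h4 k hk.symm, hk]⟩

end P65H
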