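import Pool.Agent.Lib.P65H.Code
import Pool.Agent.Lib.P65H.Core
import Pool.Agent.Lib.P65H.Col
import Pool.Agent.Lib.P65H.Two
import Pool.Agent.Lib.P65S.Tseitin
import Pool.Agent.Lib.P65S.Loc
import Pool.Agent.Lib.P65K.Final

/-!
Assembly.
-/

namespace P65H

open P65 P65T P65S

/-- The truth tables (whole truth tables, `2 ^ n` bits) of the functions that are an OR of at
most `c` functions of the class `H`. -/
def OrSlice (H : ∀ n : ℕ, ((Fin n → Bool) → Bool) → Prop) (c : ℕ) : Set (List Bool) :=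
  {w | ∃ (n : ℕ) (f : (Fin n → Bool) → Bool), w = ttab f ∧ OrOf (H n) f c}

theorem mem_OrSlice (H : ∀ n : ℕ, ((Fin n → Bool) → Bool) → Prop) (c : ℕ) {n : ℕ}
    (f : (Fin n → Bool) → Bool) : ttab f ∈ OrSlice H c ↔ OrOf (H n) f c := by
  constructor
  · rintro ⟨n', f', he, hx⟩
    have hl := congrArg List.length he
    simp only [ttab, List.length_ofFn] at hl
    have hn : n = n' := Nat.pow_right_injective (le_refl 2) hl
    subst hn
    rw [HSProjKAux.ttab_inj he]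
    exact hx
  · intro h
    exact ⟨n, f, rfl, h⟩

/-- The projections of one gated CNF. -/
theorem horn_proj {c : ℕ} (hc : 3 ≤ c) (N : ℕ) (Φ : List (PS × List (ℕ × Bool)))
    (hΦ : ∀ cl ∈ Φ, cl.2 ≠ [] ∧ cl.2.length ≤ 3 ∧ ∀ l ∈ cl.2, l.1 < N) :
    ∃ W W' : List PS,
      W.length ≤ 4 * (2 * (c + 2 * N + 6 * Φ.length)) ^ 16 ∧
      W'.length ≤ 4 * (2 * (c + 2 * N + 6 * Φ.length)) ^ 16 ∧
      ∀ H : ∀ n : ℕ, ((Fin n → Bool) → Bool) → Prop, (∀ n g, IsPureHorn g → H n g) →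
        (∀ n g, H n g → IsLinked g) → ∀ x : List Bool,
        (W.map (PS.eval x) ∈ OrSlice H c ↔
          ∃ a : ℕ → Bool, ∀ cl ∈ Φ, cl.1.eval x = true → ∃ l ∈ cl.2, a l.1 = l.2) ∧
        (W'.map (PS.eval x) ∈ OrMCSP H ↔
          ∃ a : ℕ → Bool, ∀ cl ∈ Φ, cl.1.eval x = true → ∃ l ∈ cl.2, a l.1 = l.2) := by
  classical
  obtain ⟨S, hS1, hS2, hS3⟩ := gcol hc N Φ hΦ
  have hcard : Fintype.card (Vx c N Φ.length) = c + 2 * N + 6 * Φ.length := by
    simp only [Fintype.card_sum, Fintype.card_prod, Fintype.card_fin, Fintype.card_bool]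
    ring
  obtain ⟨v, hv⟩ : ∃ v, v = c + 2 * N + 6 * Φ.length := ⟨_, rfl⟩
  obtain ⟨L, hL1, hL2⟩ := two_pow_between v (by omega)
  have hL : 1 ≤ L := by
    by_contra h0
    have h1 : L = 0 := by omega
    rw [h1] at hL1
    omega
  obtain ⟨p, hp, hp0⟩ := code_exists' (Vx c N Φ.length) L hL (by rw [hcard, ← hv]; exact hL1)
  have hp' : CodeSep p := hp
  choose sym hsym using fun k : Fin (2 ^ (16 * L + 1)) =>
    core_proj hp' S hS2 (fun i => k.1.testBit i.1)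
  have hpow : 2 ^ (16 * L + 1) ≤ 2 * (2 * v) ^ 16 := by
    rw [pow_succ, mul_comm _ 2, mul_comm 16 L, pow_mul]
    exact Nat.mul_le_mul_left _ (Nat.pow_le_pow_left hL2 16)
  have hM : 16 * L + 1 + 1 ≤ 2 ^ (16 * L + 1) := Nat.lt_two_pow_self
  have hcM : c < 2 ^ (16 * L + 1 + 1) := by
    calc c ≤ 2 ^ L := by omega
      _ < 2 ^ (16 * L + 1 + 1) := Nat.pow_lt_pow_right (by norm_num) (by omega)
  have hmap : ∀ x : List Bool, (List.ofFn sym).map (PS.eval x) =
      ttab (gfun p (fun u v => (S u v).eval x = true)) := by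
    intro x
    rw [List.map_ofFn, ttab]
    congr 1
    funext k
    exact hsym k x
  refine ⟨List.ofFn sym, List.ofFn sym ++ (bin (16 * L + 1 + 1) c).map PS.cst, ?_, ?_,
    fun H hH1 hH2 x => ?_⟩
  · rw [List.length_ofFn, ← hv]
    omega
  · rw [List.length_append, List.length_ofFn, List.length_map, bin, List.length_ofFn, ← hv]
    omega
  · have hcore : OrOf (H (16 * L + 1)) (gfun p (fun u v => (S u v).eval x = true)) c ↔
        ∃ a : ℕ → Bool, ∀ cl ∈ Φ, cl.1.eval x = true → ∃ l ∈ cl.2, a l.1 = l.2 := by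
      rw [← hS3 x]
      refine core hp' _ hp0 ?_ ?_ (by omega) (H _) (hH1 _) (hH2 _)
      · intro u w h
        rw [hS2]
        exact h
      · intro u h
        rw [hS1] at h
        exact absurd h (by simp)
    refine ⟨?_, ?_⟩
    · rw [hmap, mem_OrSlice, hcore]
    · have h1 : (List.ofFn sym ++ (bin (16 * L + 1 + 1) c).map PS.cst).map (PS.eval x) =
          ttab (gfun p (fun u v => (S u v).eval x = true)) ++ bin (16 * L + 1 + 1) c := by
        rw [List.map_append, hmap, List.map_map]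
        have h2 : (PS.eval x ∘ PS.cst) = id := by
          funext b
          rfl
        rw [h2, List.map_id]
      rw [h1, mem_OrMCSP _ _ hcM, hcore]

theorem npPoly_projH {c : ℕ} (hc : 3 ≤ c) (L : Set (List Bool)) (hL : NPpoly L) :
    ∃ d : ℕ, ∀ m, 1 ≤ m → ∃ W W' : List PS, W.length ≤ m ^ d + d ∧ W'.length ≤ m ^ d + d ∧
      ∀ H : ∀ n : ℕ, ((Fin n → Bool) → Bool) → Prop, (∀ n g, IsPureHorn g → H n g) →
        (∀ n g, H n g → IsLinked g) → ∀ x : List Bool, x.length = m →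
        (W.map (PS.eval x) ∈ OrSlice H c ↔ x ∈ L) ∧
        (W'.map (PS.eval x) ∈ OrMCSP H ↔ x ∈ L) := by
  obtain ⟨d, hd⟩ := hL
  obtain ⟨d', hd'⟩ := poly_bound d (4 * (2 * (c + 22)) ^ 16) 16
  refine ⟨d', fun m hm => ?_⟩
  obtain ⟨C, k, hC, hk, hno, hx⟩ := hd m hm
  obtain ⟨Φ, hΦl, hΦ, hΦx⟩ := P65S.tseitin m k C hno
  obtain ⟨W, W', hW, hW', hWx⟩ := horn_proj hc (C.length + k + 1) Φ hΦ
  have hb : 4 * (2 * (c + 2 * (C.length + k + 1) + 6 * Φ.length)) ^ 16 ≤ m ^ d' + d' := by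
    refine le_trans ?_ (hd' m hm)
    have hCl : C.length ≤ m ^ d + d := le_trans (FinalKAux.length_le_csize C) hC
    generalize m ^ d + d = t at hCl hk
    have h1 : 2 * (c + 2 * (C.length + k + 1) + 6 * Φ.length) ≤ 2 * (c + 22) * (t + 1) := by
      have h2 : 2 * (c + 22) * (t + 1) = 2 * (c * t) + 2 * c + 44 * t + 44 := by ring
      rw [h2]
      omega
    calc 4 * (2 * (c + 2 * (C.length + k + 1) + 6 * Φ.length)) ^ 16
        ≤ 4 * (2 * (c + 22) * (t + 1)) ^ 16 := Nat.mul_le_mul_left _ (Nat.pow_le_pow_left h1 _)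
      _ = 4 * (2 * (c + 22)) ^ 16 * (t + 1) ^ 16 := by rw [mul_pow, mul_assoc]
  refine ⟨W, W', hW.trans hb, hW'.trans hb, fun H hH1 hH2 x hxm => ⟨?_, ?_⟩⟩
  · rw [(hWx H hH1 hH2 x).1, ← hΦx x hxm, hx x hxm]
  · rw [(hWx H hH1 hH2 x).2, ← hΦx x hxm, hx x hxm]

/-- Two Horn CNFs. -/
theorem two_horn {n : ℕ} (f : (Fin n → Bool) → Bool) :
    OrOf IsHorn f 2 ↔ ∃ χ : (Fin n → Bool) → Bool, ∀ x y, f x = true → f y = true →
      f (fun i => x i && y i) = false → χ x ≠ χ y := by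
  rw [orOf_congr (fun g => horn_iff_closed)]
  exact two_closed f

end P65H
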