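import Mathlib

/-!
# MP_65a708_lc: unions of Horn formulas

`IsHorn g`: the function `g` is a Horn CNF (a finite AND of clauses, each with at most one positive
literal). `ClosedAnd g`: the accepted points of `g` are closed under the bitwise AND.
-/

namespace P65H

/-- `g` is computed by a Horn CNF: an AND of clauses (ORs of literals; the pair `(i, b)` is the
literal `x i = b`), each with at most one positive literal. -/
def IsHorn {ι : Type} (g : (ι → Bool) → Bool) : Prop :=
  ∃ F : List (List (ι × Bool)), (∀ c ∈ F, (c.filter (fun l => l.2)).length ≤ 1) ∧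
    ∀ x, (g x = true ↔ ∀ c ∈ F, ∃ l ∈ c, x l.1 = l.2)

/-- `g` is computed by a pure Horn CNF: each clause has exactly one positive literal. -/
def IsPureHorn {ι : Type} (g : (ι → Bool) → Bool) : Prop :=
  ∃ F : List (List (ι × Bool)), (∀ c ∈ F, (c.filter (fun l => l.2)).length = 1) ∧
    ∀ x, (g x = true ↔ ∀ c ∈ F, ∃ l ∈ c, x l.1 = l.2)

/-- `g` is computed by a dual Horn CNF: each clause has at most one negative literal. -/
def IsDualHorn {ι : Type} (g : (ι → Bool) → Bool) : Prop :=
  ∃ F : List (List (ι × Bool)), (∀ c ∈ F, (c.filter (fun l => !l.2)).length ≤ 1) ∧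
    ∀ x, (g x = true ↔ ∀ c ∈ F, ∃ l ∈ c, x l.1 = l.2)

/-- Any two accepted points `x`, `y`, neither of which is below the other, have an accepted
point `z` strictly between them (`z` is not `x` or `y`, and agrees with `x` and `y` wherever they
agree). -/
def IsLinked {ι : Type} (g : (ι → Bool) → Bool) : Prop :=
  ∀ x y : ι → Bool, g x = true → g y = true → (∃ i, x i = true ∧ y i = false) →
    (∃ i, x i = false ∧ y i = true) →
    ∃ z, g z = true ∧ z ≠ x ∧ z ≠ y ∧ ∀ i, x i = y i → z i = x i

/-- The accepted points are closed under the bitwise AND. -/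
def ClosedAnd {ι : Type} (g : (ι → Bool) → Bool) : Prop :=
  ∀ x y : ι → Bool, g x = true → g y = true → g (x ⊓ y) = true

private theorem filter_eq {α : Type} {p : α → Bool} {c : List α} (hc : (c.filter p).length ≤ 1)
    {l l' : α} (hl : l ∈ c) (hl' : l' ∈ c) (hp : p l = true) (hp' : p l' = true) : l = l' := by
  have h1 : l ∈ c.filter p := List.mem_filter.2 ⟨hl, hp⟩
  have h2 : l' ∈ c.filter p := List.mem_filter.2 ⟨hl', hp'⟩
  rcases h5 : c.filter p with _ | ⟨a, _ | ⟨b, t⟩⟩
  · rw [h5] at h1
    simp at h1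
  · rw [h5] at h1 h2
    simp only [List.mem_singleton] at h1 h2
    rw [h1, h2]
  · rw [h5] at hc
    simp at hc

theorem horn_closed {ι : Type} {g : (ι → Bool) → Bool} (h : IsHorn g) : ClosedAnd g := by
  obtain ⟨F, hF, hg⟩ := h
  intro x y hx hy
  rw [hg] at hx hy ⊢
  intro c hc
  obtain ⟨l, hl, hlx⟩ := hx c hc
  obtain ⟨l', hl', hly⟩ := hy c hc
  rcases hb : l.2 with _ | _
  · refine ⟨l, hl, ?_⟩
    rw [Pi.inf_apply, hlx, hb]
    simp
  · rcases hb' : l'.2 with _ | _
    · refine ⟨l', hl', ?_⟩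
      rw [Pi.inf_apply, hly, hb']
      simp
    · have h3 : l = l' := filter_eq (hF c hc) hl hl' hb hb'
      subst h3
      refine ⟨l, hl, ?_⟩
      rw [Pi.inf_apply, hlx, hly]
      simp

theorem pure_horn {ι : Type} {g : (ι → Bool) → Bool} (h : IsPureHorn g) : IsHorn g := by
  obtain ⟨F, hF, hg⟩ := h
  exact ⟨F, fun c hc => (hF c hc).le, hg⟩

theorem closed_linked {ι : Type} {g : (ι → Bool) → Bool} (h : ClosedAnd g) : IsLinked g := by
  rintro x y hx hy ⟨i, hi1, hi2⟩ ⟨j, hj1, hj2⟩
  refine ⟨x ⊓ y, h x y hx hy, ?_, ?_, ?_⟩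
  · intro he
    have h1 := congrFun he i
    rw [Pi.inf_apply, hi1, hi2] at h1
    exact absurd h1 (by simp)
  · intro he
    have h1 := congrFun he j
    rw [Pi.inf_apply, hj1, hj2] at h1
    exact absurd h1 (by simp)
  · intro k hk
    rw [Pi.inf_apply, ← hk]
    simp

theorem horn_linked {ι : Type} {g : (ι → Bool) → Bool} (h : IsHorn g) : IsLinked g :=
  closed_linked (horn_closed h)

theorem dualHorn_linked {ι : Type} {g : (ι → Bool) → Bool} (h : IsDualHorn g) : IsLinked g := by
  obtain ⟨F, hF, hg⟩ := h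
  have hcl : ∀ x y : ι → Bool, g x = true → g y = true → g (x ⊔ y) = true := by
    intro x y hx hy
    rw [hg] at hx hy ⊢
    intro c hc
    obtain ⟨l, hl, hlx⟩ := hx c hc
    obtain ⟨l', hl', hly⟩ := hy c hc
    rcases hb : l.2 with _ | _
    · rcases hb' : l'.2 with _ | _
      · have h3 : l = l' := filter_eq (hF c hc) hl hl' (by rw [hb]; rfl) (by rw [hb']; rfl)
        subst h3
        refine ⟨l, hl, ?_⟩
        rw [Pi.sup_apply, hlx, hly]
        simp
      · refine ⟨l', hl', ?_⟩
        rw [Pi.sup_apply, hly, hb']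
        simp
    · refine ⟨l, hl, ?_⟩
      rw [Pi.sup_apply, hlx, hb]
      simp
  rintro x y hx hy ⟨i, hi1, hi2⟩ ⟨j, hj1, hj2⟩
  refine ⟨x ⊔ y, hcl x y hx hy, ?_, ?_, ?_⟩
  · intro he
    have h1 := congrFun he j
    rw [Pi.sup_apply, hj1, hj2] at h1
    exact absurd h1 (by simp)
  · intro he
    have h1 := congrFun he i
    rw [Pi.sup_apply, hi1, hi2] at h1
    exact absurd h1 (by simp)
  · intro k hk
    rw [Pi.sup_apply, ← hk]
    simp

/-- The negative literals on the ones of `x`. -/
noncomputable def negs {ι : Type} [Fintype ι] (x : ι → Bool) : List (ι × Bool) :=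
  ((Finset.univ.filter (fun i => x i = true)).toList).map (fun i => (i, false))

theorem mem_negs {ι : Type} [Fintype ι] (x : ι → Bool) (l : ι × Bool) :
    l ∈ negs x ↔ x l.1 = true ∧ l.2 = false := by
  unfold negs
  rw [List.mem_map]
  constructor
  · rintro ⟨i, hi, rfl⟩
    rw [Finset.mem_toList, Finset.mem_filter] at hi
    exact ⟨hi.2, rfl⟩
  · rintro ⟨h1, h2⟩
    refine ⟨l.1, ?_, ?_⟩
    · rw [Finset.mem_toList, Finset.mem_filter]
      exact ⟨Finset.mem_univ _, h1⟩
    · rw [← h2]

theorem filter_negs {ι : Type} [Fintype ι] (x : ι → Bool) :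
    (negs x).filter (fun l => l.2) = [] := by
  rw [List.filter_eq_nil_iff]
  intro l hl
  rw [mem_negs] at hl
  rw [hl.2]
  simp

theorem clause_exists {ι : Type} [Fintype ι] {g : (ι → Bool) → Bool} (h : ClosedAnd g)
    (x : ι → Bool) (hx : g x = false) :
    ∃ c : List (ι × Bool), (c.filter (fun l => l.2)).length ≤ 1 ∧
      (g ⊤ = true → (c.filter (fun l => l.2)).length = 1) ∧ (¬ ∃ l ∈ c, x l.1 = l.2) ∧
      ∀ y, g y = true → ∃ l ∈ c, y l.1 = l.2 := by
  classical
  have hno : ¬ ∃ l ∈ negs x, x l.1 = l.2 := by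
    rintro ⟨l, hl, hl2⟩
    rw [mem_negs] at hl
    rw [hl.1, hl.2] at hl2
    exact absurd hl2 (by simp)
  have hneg : ∀ y, ¬ x ≤ y → ∃ l ∈ negs x, y l.1 = l.2 := by
    intro y hy
    rw [Pi.le_def, not_forall] at hy
    obtain ⟨i, hi⟩ := hy
    refine ⟨(i, false), ?_, ?_⟩
    · rw [mem_negs]
      revert hi
      cases x i <;> cases y i <;> simp
    · revert hi
      cases x i <;> cases y i <;> simp
  by_cases hU : (Finset.univ.filter (fun z : ι → Bool => g z = true ∧ x ≤ z)).Nonempty
  · set U := Finset.univ.filter (fun z : ι → Bool => g z = true ∧ x ≤ z) with hUd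
    have hm : g (U.inf' hU id) = true := by
      refine Finset.inf'_induction hU id (p := fun z => g z = true) (fun a ha b hb => h a b ha hb) ?_
      intro b hb
      rw [hUd, Finset.mem_filter] at hb
      exact hb.2.1
    have hxm : x ≤ U.inf' hU id := by
      refine Finset.le_inf' hU id ?_
      intro b hb
      rw [hUd, Finset.mem_filter] at hb
      exact hb.2.2
    have hne : ¬ U.inf' hU id ≤ x := by
      intro h1
      rw [le_antisymm h1 hxm, hx] at hm
      exact absurd hm (by simp)
    rw [Pi.le_def, not_forall] at hne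
    obtain ⟨j, hj⟩ := hne
    have hj1 : x j = false ∧ (U.inf' hU id) j = true := by
      revert hj
      cases x j <;> cases (U.inf' hU id) j <;> simp
    have hlen : (((j, true) :: negs x).filter (fun l => l.2)).length = 1 := by
      rw [List.filter_cons_of_pos (by simp), filter_negs]
      simp
    refine ⟨(j, true) :: negs x, hlen.le, fun _ => hlen, ?_, ?_⟩
    · rintro ⟨l, hl, hl2⟩
      rw [List.mem_cons] at hl
      rcases hl with rfl | hl
      · rw [hj1.1] at hl2
        exact absurd hl2 (by simp)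
      · exact hno ⟨l, hl, hl2⟩
    · intro y hy
      by_cases hxy : x ≤ y
      · refine ⟨(j, true), List.mem_cons_self, ?_⟩
        have h1 : U.inf' hU id ≤ y := by
          have h2 : y ∈ U := by
            rw [hUd, Finset.mem_filter]
            exact ⟨Finset.mem_univ _, hy, hxy⟩
          exact Finset.inf'_le id h2
        have h3 := h1 j
        rw [hj1.2] at h3
        revert h3
        cases y j <;> simp
      · obtain ⟨l, hl, hl2⟩ := hneg y hxy
        exact ⟨l, List.mem_cons_of_mem _ hl, hl2⟩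
  · refine ⟨negs x, ?_, ?_, hno, ?_⟩
    · rw [filter_negs]
      simp
    · intro ht
      exfalso
      apply hU
      exact ⟨⊤, by rw [Finset.mem_filter]; exact ⟨Finset.mem_univ _, ht, le_top⟩⟩
    · intro y hy
      apply hneg
      intro hxy
      apply hU
      exact ⟨y, by rw [Finset.mem_filter]; exact ⟨Finset.mem_univ _, hy, hxy⟩⟩

/-- All clauses together. -/
theorem cnf_exists {ι : Type} [Fintype ι] {g : (ι → Bool) → Bool} (h : ClosedAnd g) :
    ∃ F : List (List (ι × Bool)), (∀ c ∈ F, (c.filter (fun l => l.2)).length ≤ 1) ∧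
    (g ⊤ = true → ∀ c ∈ F, (c.filter (fun l => l.2)).length = 1) ∧
    ∀ x, (g x = true ↔ ∀ c ∈ F, ∃ l ∈ c, x l.1 = l.2) := by
  classical
  have h1 : ∀ x : ι → Bool, ∃ c : List (ι × Bool), g x = false →
      (c.filter (fun l => l.2)).length ≤ 1 ∧
      (g ⊤ = true → (c.filter (fun l => l.2)).length = 1) ∧ (¬ ∃ l ∈ c, x l.1 = l.2) ∧
      ∀ y, g y = true → ∃ l ∈ c, y l.1 = l.2 := by
    intro x
    by_cases hx : g x = false
    · obtain ⟨c, hc⟩ := clause_exists h x hx
      exact ⟨c, fun _ => hc⟩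
    · exact ⟨[], fun h2 => absurd h2 hx⟩
  choose c hc using h1
  refine ⟨((Finset.univ.filter (fun x : ι → Bool => g x = false)).toList).map c, ?_, ?_, ?_⟩
  · intro cl hcl
    obtain ⟨x, hx, rfl⟩ := List.mem_map.1 hcl
    rw [Finset.mem_toList, Finset.mem_filter] at hx
    exact (hc x hx.2).1
  · intro ht cl hcl
    obtain ⟨x, hx, rfl⟩ := List.mem_map.1 hcl
    rw [Finset.mem_toList, Finset.mem_filter] at hx
    exact (hc x hx.2).2.1 ht
  · intro y
    constructor
    · intro hy cl hcl
      obtain ⟨x, hx, rfl⟩ := List.mem_map.1 hcl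
      rw [Finset.mem_toList, Finset.mem_filter] at hx
      exact (hc x hx.2).2.2.2 y hy
    · intro hy
      by_contra hgy
      rw [Bool.not_eq_true] at hgy
      refine (hc y hgy).2.2.1 (hy (c y) ?_)
      rw [List.mem_map]
      exact ⟨y, by rw [Finset.mem_toList, Finset.mem_filter]; exact ⟨Finset.mem_univ _, hgy⟩, rfl⟩

/-- A function of finitely many variables is a Horn CNF iff its accepted points are closed under
the bitwise AND. -/
theorem horn_iff_closed {ι : Type} [Fintype ι] {g : (ι → Bool) → Bool} :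
    IsHorn g ↔ ClosedAnd g := by
  refine ⟨horn_closed, fun h => ?_⟩
  obtain ⟨F, h1, _, h3⟩ := cnf_exists h
  exact ⟨F, h1, h3⟩

/-- If moreover the point `1...1` is accepted, then it is a pure Horn CNF. -/
theorem pureHorn_of_closed {ι : Type} [Fintype ι] {g : (ι → Bool) → Bool} (h : ClosedAnd g)
    (ht : g ⊤ = true) : IsPureHorn g := by
  obtain ⟨F, _, h2, h3⟩ := cnf_exists h
  exact ⟨F, h2 ht, h3⟩

end P65H
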